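import Mathlib

/-!
# Every pair `(k, α)` is realised by a connected graph with FAT chromatic number `k`

For `α = a / b` the graph lives on `Fin k × ZMod p` with `p` a large prime: two vertices in
different rows are adjacent when their second coordinates differ by at most `a`, two vertices in
the same row are adjacent when their second coordinates differ by `a + 1, ..., a + c` where
`c = b - (k - 1) * a`.  Since the blocks are circulant of prime order, every rational function on
the vertex set that satisfies a FAT type equation is constant on the rows, so that a FAT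
colouring has at most `k` classes.
-/

namespace Pool.Agent.Results.MP_2d49c6_co.PrescribedParameter

open Finset Polynomial

/-- The number of neighbours of `v` that lie in `S`. -/
noncomputable def e {V : Type} (G : SimpleGraph V) (v : V) (S : Set V) : ℕ :=
  Set.ncard (G.neighborSet v ∩ S)

/-- `c` is a FAT `k`-coloring of `G` with parameter `α`. -/
def IsFAT {V : Type} (G : SimpleGraph V) (k : ℕ) (α : ℝ) (c : V → Fin k) : Prop :=
  Function.Surjective c ∧ 0 ≤ α ∧ α ≤ 1 ∧
    ∀ (v : V) (i : Fin k),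
      (c v ≠ i → (e G v {u | c u = i} : ℝ) = α * (G.neighborSet v).ncard) ∧
      (c v = i → (e G v {u | c u = i} : ℝ)
        = (1 - ((k : ℝ) - 1) * α) * (G.neighborSet v).ncard)

section Character

variable {p : ℕ} [hp : Fact p.Prime]

lemma const_of_sum_eq_zero (ζ : ℂ) (hζ : IsPrimitiveRoot ζ p) (g : ZMod p → ℚ)
    (h : ∑ x : ZMod p, (g x : ℂ) * ζ ^ x.val = 0) : ∀ x y, g x = g y := by
  have hp0 : 0 < p := hp.out.pos
  have : NeZero p := ⟨hp0.ne'⟩
  set P : ℚ[X] := ∑ n ∈ range p, monomial n (g (n : ZMod p)) with hP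
  have hcoeff : ∀ n, n < p → P.coeff n = g (n : ZMod p) := by
    intro n hn
    rw [hP, finsetSum_coeff]
    simp only [coeff_monomial]
    rw [Finset.sum_ite_eq' (range p) n]
    simp [hn]
  have hdeg : P.natDegree ≤ p - 1 := by
    rw [hP]
    apply natDegree_sum_le_of_forall_le
    intro n hn
    have hn' : n < p := by simpa using hn
    exact (natDegree_monomial_le _).trans (by omega)
  have hroot : aeval ζ P = 0 := by
    rw [hP, map_sum, ← h]
    symm
    apply Finset.sum_nbij' (fun x : ZMod p => x.val) (fun n : ℕ => (n : ZMod p))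
    · intro x _
      simpa using ZMod.val_lt x
    · intro n _
      simp
    · intro x _
      simp
    · intro n hn
      exact ZMod.val_natCast_of_lt (by simpa using hn)
    · intro x _
      simp [aeval_monomial]
  have hdvd : cyclotomic p ℚ ∣ P := by
    rw [cyclotomic_eq_minpoly_rat hζ hp0]
    exact minpoly.dvd ℚ ζ hroot
  obtain ⟨Q, hQ⟩ := hdvd
  have hcyc : (cyclotomic p ℚ).natDegree = p - 1 := by
    rw [natDegree_cyclotomic, Nat.totient_prime hp.out]
  have hQ0 : ∃ q : ℚ, Q = C q := by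
    by_cases hq : Q = 0
    · exact ⟨0, by simp [hq]⟩
    · have hc0 : cyclotomic p ℚ ≠ 0 := cyclotomic_ne_zero p ℚ
      have hd : P.natDegree = (p - 1) + Q.natDegree := by
        rw [hQ, natDegree_mul hc0 hq, hcyc]
      have : Q.natDegree = 0 := by omega
      exact ⟨Q.coeff 0, eq_C_of_natDegree_eq_zero this⟩
  obtain ⟨q, rfl⟩ := hQ0
  have key : ∀ x : ZMod p, g x = q := by
    intro x
    have h1 := hcoeff x.val (ZMod.val_lt x)
    rw [ZMod.natCast_zmod_val] at h1
    rw [← h1, hQ, coeff_mul_C, cyclotomic_prime, finsetSum_coeff]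
    simp only [coeff_X_pow]
    rw [Finset.sum_ite_eq (range p) x.val]
    simp [ZMod.val_lt x]
  intro x y
  rw [key x, key y]

end Character

section Rows

variable {k p : ℕ} [hp : Fact p.Prime]

/-- The connection set between row `i` and row `j`. -/
def conn (A B : Finset (ZMod p)) (i j : Fin k) : Finset (ZMod p) := if i = j then B else A

lemma rows_const (A B : Finset (ZMod p)) (hk : 2 ≤ k)
    (y₀ : ZMod p) (hy0 : y₀ ≠ 0) (hyA : y₀ ∉ A) (hyB : y₀ ∉ B)
    (h1A : (1 : ZMod p) ∈ A) (h1B : (1 : ZMod p) ∉ B)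
    (f : Fin k × ZMod p → ℚ) (m μ : ℚ)
    (hf : ∀ i x, ∑ j, ∑ s ∈ conn A B i j, f (j, x + s) = m + μ * f (i, x)) :
    ∀ i x y, f (i, x) = f (i, y) := by
  have hp0 : p ≠ 0 := hp.out.ne_zero
  have : NeZero p := ⟨hp0⟩
  obtain ⟨ζ, hζ⟩ : ∃ ζ : ℂ, IsPrimitiveRoot ζ p := ⟨_, Complex.isPrimitiveRoot_exp p hp0⟩
  let χ : AddChar (ZMod p) ℂ := AddChar.zmodChar p hζ.pow_eq_one
  have hχ : ∀ a : ZMod p, χ a = ζ ^ a.val := fun a => AddChar.zmodChar_apply _ a
  have hconst : ∀ g : ZMod p → ℚ, ∑ x : ZMod p, (g x : ℂ) * χ x = 0 → ∀ x y, g x = g y := by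
    intro g hg
    apply const_of_sum_eq_zero ζ hζ g
    simpa [hχ] using hg
  have hχ1 : ∑ x : ZMod p, χ x = 0 := by
    have h2 : (1 : ℂ) ≠ ζ := by
      intro h
      exact hζ.ne_one hp.out.one_lt h.symm
    have h3 : χ ≠ 1 := by
      intro h
      apply h2
      have : χ 1 = 1 := by rw [h]; simp
      rw [hχ, ZMod.val_one''] at this
      · simpa using this.symm
      · exact hp.out.one_lt.ne'
    exact AddChar.sum_eq_zero_of_ne_one h3
  have hχn : ∑ x : ZMod p, χ (-x) = 0 := by
    rw [← hχ1]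
    exact Equiv.sum_comp (Equiv.neg (ZMod p)) (fun x => χ x)
  set F : Fin k → ℂ := fun j => ∑ y : ZMod p, χ (-y) * (f (j, y) : ℂ) with hF
  set a : ℂ := ∑ s ∈ A, χ s with ha
  set b : ℂ := ∑ s ∈ B, χ s with hb
  have hshift : ∀ (j : Fin k) (s : ZMod p),
      ∑ x : ZMod p, χ (-x) * (f (j, x + s) : ℂ) = χ s * F j := by
    intro j s
    rw [hF, Finset.mul_sum,
      ← Equiv.sum_comp (Equiv.addRight s) (fun y => χ s * (χ (-y) * (f (j, y) : ℂ)))]
    apply Finset.sum_congr rfl
    intro x _
    simp only [Equiv.coe_addRight]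
    rw [← mul_assoc, ← AddChar.map_add_eq_mul]
    congr 2
    ring
  have hmain : ∀ i, ∑ j, (if i = j then b else a) * F j = μ * F i := by
    intro i
    have h1 : ∑ x : ZMod p, χ (-x) * ((∑ j, ∑ s ∈ conn A B i j, f (j, x + s) : ℚ) : ℂ)
        = ∑ x : ZMod p, χ (-x) * ((m + μ * f (i, x) : ℚ) : ℂ) := by
      apply Finset.sum_congr rfl
      intro x _
      rw [hf i x]
    have h2 : ∑ x : ZMod p, χ (-x) * ((m + μ * f (i, x) : ℚ) : ℂ) = μ * F i := by
      have : ∀ x : ZMod p, χ (-x) * ((m + μ * f (i, x) : ℚ) : ℂ)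
          = (m : ℂ) * χ (-x) + μ * (χ (-x) * (f (i, x) : ℂ)) := by
        intro x
        push_cast
        ring
      simp only [this]
      rw [Finset.sum_add_distrib, ← Finset.mul_sum, ← Finset.mul_sum, hχn, mul_zero, zero_add]
    have h3 : ∑ x : ZMod p, χ (-x) * ((∑ j, ∑ s ∈ conn A B i j, f (j, x + s) : ℚ) : ℂ)
        = ∑ j, (if i = j then b else a) * F j := by
      push_cast
      simp only [Finset.mul_sum]
      rw [Finset.sum_comm]
      apply Finset.sum_congr rfl
      intro j _
      rw [Finset.sum_comm]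
      simp only [hshift]
      rw [← Finset.sum_mul]
      by_cases hij : i = j
      · simp [conn, hij, hb]
      · simp [conn, hij, ha]
    rw [← h3, h1, h2]
  -- the total
  set S : ℂ := ∑ j, F j with hS
  have hrow : ∀ i, a * S + (b - a - μ) * F i = 0 := by
    intro i
    have h1 := hmain i
    have h2 : ∑ j, (if i = j then b else a) * F j = a * S + (b - a) * F i := by
      have : ∀ j, (if i = j then b else a) * F j = a * F j + (if i = j then (b - a) * F j else 0) := by
        intro j
        by_cases hij : i = j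
        · simp [hij]; ring
        · simp [hij]
      simp only [this]
      rw [Finset.sum_add_distrib, ← Finset.mul_sum, Finset.sum_ite_eq]
      simp [hS]
    rw [h2] at h1
    linear_combination h1
  have hne : ∀ r t : ℚ, r ≠ 0 → r * a + t * b - μ ≠ 0 := by
    intro r t hr h
    have h1 : ∑ x : ZMod p, ((((if x ∈ A then r else 0) + (if x ∈ B then t else 0)
        - (if x = 0 then μ else 0) : ℚ)) : ℂ) * χ x = 0 := by
      have : ∀ x : ZMod p, ((((if x ∈ A then r else 0) + (if x ∈ B then t else 0)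
        - (if x = 0 then μ else 0) : ℚ)) : ℂ) * χ x = (if x ∈ A then r * χ x else 0)
          + (if x ∈ B then t * χ x else 0) - (if x = 0 then μ * χ x else 0) := by
        intro x
        push_cast
        split_ifs <;> ring
      simp only [this]
      rw [Finset.sum_sub_distrib, Finset.sum_add_distrib, Finset.sum_ite_mem, Finset.sum_ite_mem,
        Finset.sum_ite_eq']
      simp only [Finset.univ_inter, Finset.mem_univ, if_true, AddChar.map_zero_eq_one, mul_one]
      rw [← Finset.mul_sum, ← Finset.mul_sum]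
      exact h
    have h2 := hconst _ h1 1 y₀
    have h10 : (1 : ZMod p) ≠ 0 := one_ne_zero
    simp only [h1A, h1B, hyA, hyB, hy0, h10, if_true, if_false] at h2
    apply hr
    linarith
  have hS0 : S = 0 := by
    have h0 : ∑ i : Fin k, (a * S + (b - a - μ) * F i) = 0 := by
      simp [hrow]
    have h1 : (k : ℂ) * (a * S) + (b - a - μ) * S = 0 := by
      rw [← h0, Finset.sum_add_distrib]
      simp only [Finset.sum_const, Finset.card_univ, Fintype.card_fin, nsmul_eq_mul]
      rw [hS, Finset.mul_sum univ F (b - a - μ)]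
    have hk1 : ((k : ℚ) - 1) ≠ 0 := by
      have : (2 : ℚ) ≤ k := by exact_mod_cast hk
      intro h
      linarith
    have h2 := hne ((k : ℚ) - 1) 1 hk1
    have h3 : ((((k : ℚ) - 1 : ℚ) : ℂ) * a + ((1 : ℚ) : ℂ) * b - μ) * S = 0 := by
      push_cast
      linear_combination h1
    rcases mul_eq_zero.mp h3 with h | h
    · exact absurd h h2
    · exact h
  have hF0 : ∀ i, F i = 0 := by
    intro i
    have h1 := hrow i
    rw [hS0, mul_zero, zero_add] at h1
    have h2 := hne (-1) 1 (by norm_num)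
    rcases mul_eq_zero.mp h1 with h | h
    · exfalso
      apply h2
      push_cast
      linear_combination h
    · exact h
  intro i x y
  have h1 : ∑ x : ZMod p, (((fun z => f (i, -z)) x : ℚ) : ℂ) * χ x = 0 := by
    rw [← hF0 i, hF]
    simp only
    rw [← Equiv.sum_comp (Equiv.neg (ZMod p))]
    apply Finset.sum_congr rfl
    intro z _
    simp [mul_comm]
  have h2 := hconst _ h1 (-x) (-y)
  simpa using h2

end Rows

section Graph

variable {k p : ℕ} [hp : Fact p.Prime]

/-- The graph with rows `Fin k`, connection set `B` inside the rows and `A` between rows. -/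
def Gr (k : ℕ) {p : ℕ} (A B : Finset (ZMod p)) (hA : ∀ x ∈ A, -x ∈ A) (hB : ∀ x ∈ B, -x ∈ B)
    (h0 : (0 : ZMod p) ∉ B) : SimpleGraph (Fin k × ZMod p) where
  Adj u v := v.2 - u.2 ∈ conn A B u.1 v.1
  symm := ⟨by
    intro u v h
    unfold conn at h ⊢
    by_cases huv : u.1 = v.1
    · rw [if_pos huv] at h
      rw [if_pos huv.symm]
      have := hB _ h
      rwa [neg_sub] at this
    · rw [if_neg huv] at h
      rw [if_neg (fun h' => huv h'.symm)]
      have := hA _ h
      rwa [neg_sub] at this⟩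
  loopless := ⟨by
    intro u h
    unfold conn at h
    rw [if_pos rfl, sub_self] at h
    exact h0 h⟩

variable (A B : Finset (ZMod p)) (hA : ∀ x ∈ A, -x ∈ A) (hB : ∀ x ∈ B, -x ∈ B)
    (h0 : (0 : ZMod p) ∉ B)

open Classical in
lemma e_eq (v : Fin k × ZMod p) (S : Set (Fin k × ZMod p)) :
    e (Gr k A B hA hB h0) v S
      = ∑ j, ∑ s ∈ conn A B v.1 j, if (j, v.2 + s) ∈ S then 1 else 0 := by
  have : NeZero p := ⟨hp.out.ne_zero⟩
  have h1 : (Gr k A B hA hB h0).neighborSet v ∩ S
      = ((univ.filter fun u : Fin k × ZMod p => u.2 - v.2 ∈ conn A B v.1 u.1 ∧ u ∈ S :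
        Finset (Fin k × ZMod p)) : Set (Fin k × ZMod p)) := by
    ext u
    simp [Gr]
  rw [e, h1, Set.ncard_coe_finset, Finset.card_filter, Fintype.sum_prod_type]
  apply Finset.sum_congr rfl
  intro j _
  rw [← Equiv.sum_comp (Equiv.addLeft v.2)]
  simp only [Equiv.coe_addLeft, add_sub_cancel_left, ite_and]
  rw [Finset.sum_ite_mem, Finset.univ_inter]

omit hp in
lemma sum_conn (i : Fin k) : ∑ j, (conn A B i j).card + A.card = k * A.card + B.card := by
  have h1 : ∀ j, (conn A B i j).card + (if i = j then A.card else 0)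
      = A.card + (if i = j then B.card else 0) := by
    intro j
    unfold conn
    by_cases hij : i = j
    · simp [hij, add_comm]
    · simp [hij]
  have h2 : ∑ j, ((conn A B i j).card + (if i = j then A.card else 0))
      = ∑ j, (A.card + (if i = j then B.card else 0)) := by
    simp only [h1]
  rw [Finset.sum_add_distrib, Finset.sum_add_distrib, Finset.sum_ite_eq, Finset.sum_ite_eq] at h2
  simpa using h2

lemma degree_eq (v : Fin k × ZMod p) :
    ((Gr k A B hA hB h0).neighborSet v).ncard + A.card = k * A.card + B.card := by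
  classical
  have h1 := e_eq A B hA hB h0 v Set.univ
  rw [e, Set.inter_univ] at h1
  rw [h1]
  simp only [Set.mem_univ, if_true, Finset.sum_const, smul_eq_mul, mul_one]
  exact sum_conn A B v.1

lemma connected (hk : 2 ≤ k) (hp2 : 2 < p) (h1 : (1 : ZMod p) ∈ A) :
    (Gr k A B hA hB h0).Connected := by
  have : NeZero p := ⟨hp.out.ne_zero⟩
  have hstep : ∀ (i j : Fin k) (x : ZMod p), i ≠ j →
      (Gr k A B hA hB h0).Reachable (i, x) (j, x + 1) := by
    intro i j x hij
    apply SimpleGraph.Adj.reachable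
    simp [Gr, conn, hij, h1]
  have hother : ∀ i : Fin k, ∃ j : Fin k, i ≠ j := by
    intro i
    have : Nontrivial (Fin k) := Fin.nontrivial_iff_two_le.mpr hk
    obtain ⟨j, hj⟩ := exists_ne i
    exact ⟨j, hj.symm⟩
  have htwo : ∀ (i : Fin k) (x : ZMod p) (n : ℕ),
      (Gr k A B hA hB h0).Reachable (i, x) (i, x + 2 * (n : ZMod p)) := by
    intro i x n
    induction n with
    | zero => simp
    | succ n ih =>
      obtain ⟨j, hj⟩ := hother i
      refine ih.trans ((hstep i j _ hj).trans ?_)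
      have := hstep j i (x + 2 * (n : ZMod p) + 1) hj.symm
      have h2 : x + 2 * (n : ZMod p) + 1 + 1 = x + 2 * ((n + 1 : ℕ) : ZMod p) := by
        push_cast
        ring
      rwa [h2] at this
  have h20 : (2 : ZMod p) ≠ 0 := by
    intro h
    have h2 : ((2 : ℕ) : ZMod p) = 0 := by exact_mod_cast h
    rw [ZMod.natCast_eq_zero_iff] at h2
    exact absurd (Nat.le_of_dvd (by norm_num) h2) (by omega)
  have hsame : ∀ (i : Fin k) (x y : ZMod p), (Gr k A B hA hB h0).Reachable (i, x) (i, y) := by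
    intro i x y
    have h2 := htwo i x ((y - x) * 2⁻¹).val
    rw [ZMod.natCast_zmod_val] at h2
    have h3 : x + 2 * ((y - x) * 2⁻¹) = y := by
      field_simp
      ring
    rwa [h3] at h2
  have : Nonempty (Fin k × ZMod p) := ⟨(⟨0, by omega⟩, 0)⟩
  refine SimpleGraph.Connected.mk ?_
  rintro ⟨i, x⟩ ⟨j, y⟩
  by_cases hij : i = j
  · subst hij
    exact hsame i x y
  · refine (hsame i x (y - 1)).trans ?_
    have h2 := hstep i j (y - 1) hij
    rwa [sub_add_cancel] at h2

/-- A FAT colouring of the graph is constant on the rows, so it has at most `k` classes. -/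
lemma upper (hk : 2 ≤ k) (y₀ : ZMod p) (hy0 : y₀ ≠ 0) (hyA : y₀ ∉ A) (hyB : y₀ ∉ B)
    (h1A : (1 : ZMod p) ∈ A) (h1B : (1 : ZMod p) ∉ B) (m : ℕ) (α : ℝ)
    (c : Fin k × ZMod p → Fin m) (hc : IsFAT (Gr k A B hA hB h0) m α c) : m ≤ k := by
  classical
  rcases Nat.lt_or_ge m 2 with hm | hm
  · omega
  obtain ⟨hsurj, -, -, hfat⟩ := hc
  -- the common degree
  set v₀ : Fin k × ZMod p := (⟨0, by omega⟩, 0) with hv0
  set D : ℕ := ((Gr k A B hA hB h0).neighborSet v₀).ncard with hD
  have hdeg : ∀ v, ((Gr k A B hA hB h0).neighborSet v).ncard = D := by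
    intro v
    have h1 := degree_eq A B hA hB h0 v
    have h2 := degree_eq A B hA hB h0 v₀
    omega
  obtain ⟨t₀, ht₀⟩ : ∃ t₀ : Fin m, c v₀ ≠ t₀ := by
    have : Nontrivial (Fin m) := Fin.nontrivial_iff_two_le.mpr hm
    obtain ⟨j, hj⟩ := exists_ne (c v₀)
    exact ⟨j, hj.symm⟩
  set M : ℕ := e (Gr k A B hA hB h0) v₀ {u | c u = t₀} with hM
  have hMα : (M : ℝ) = α * D := (hfat v₀ t₀).1 ht₀
  have hcount : ∀ (v : Fin k × ZMod p) (t : Fin m),
      (e (Gr k A B hA hB h0) v {u | c u = t} : ℚ)
        = M + ((D : ℚ) - m * M) * (if c v = t then 1 else 0) := by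
    intro v t
    have hreal : (e (Gr k A B hA hB h0) v {u | c u = t} : ℝ)
        = M + ((D : ℝ) - m * M) * (if c v = t then 1 else 0) := by
      by_cases hvt : c v = t
      · have := (hfat v t).2 hvt
        rw [this, hdeg v, if_pos hvt, hMα]
        ring
      · have := (hfat v t).1 hvt
        rw [this, hdeg v, if_neg hvt, hMα]
        ring
    by_cases hvt : c v = t
    · rw [if_pos hvt] at hreal ⊢
      exact_mod_cast hreal
    · rw [if_neg hvt] at hreal ⊢
      have h2 : (e (Gr k A B hA hB h0) v {u | c u = t} : ℝ) = M := by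
        rw [hreal]; ring
      have h3 : e (Gr k A B hA hB h0) v {u | c u = t} = M := by exact_mod_cast h2
      rw [h3]
      ring
  have hrows : ∀ (t : Fin m) (i : Fin k) (x y : ZMod p), c (i, x) = t → c (i, y) = t := by
    intro t i x y hx
    have h := rows_const A B hk y₀ hy0 hyA hyB h1A h1B
      (fun u => if c u = t then 1 else 0) M ((D : ℚ) - m * M) (by
        intro i x
        rw [← hcount (i, x) t, e_eq A B hA hB h0 (i, x) {u | c u = t}]
        push_cast
        rfl) i x y
    simp only [hx, if_true] at h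
    by_contra hy
    rw [if_neg hy] at h
    exact one_ne_zero h
  have hs : Function.Surjective (fun i : Fin k => c (i, 0)) := by
    intro t
    obtain ⟨⟨i, x⟩, hix⟩ := hsurj t
    exact ⟨i, hrows t i x 0 hix⟩
  have := Fintype.card_le_of_surjective _ hs
  simpa using this

/-- The colouring by rows is FAT. -/
lemma lower (α : ℚ) (hα0 : 0 ≤ α) (hα1 : α ≤ 1) (b : ℕ)
    (hAc : (A.card : ℚ) = α * b) (hBc : (B.card : ℚ) = (1 - ((k : ℚ) - 1) * α) * b) :
    IsFAT (Gr k A B hA hB h0) k (α : ℝ) (fun u => u.1) := by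
  classical
  have hdeg : ∀ v, ((Gr k A B hA hB h0).neighborSet v).ncard = b := by
    intro v
    have h1 := degree_eq A B hA hB h0 v
    have h2 : ((((Gr k A B hA hB h0).neighborSet v).ncard : ℕ) : ℚ) + A.card
        = k * A.card + B.card := by exact_mod_cast h1
    rw [hAc, hBc] at h2
    have h3 : ((((Gr k A B hA hB h0).neighborSet v).ncard : ℕ) : ℚ) = (b : ℚ) := by
      linear_combination h2
    exact_mod_cast h3
  have hcnt : ∀ (v : Fin k × ZMod p) (i : Fin k),
      e (Gr k A B hA hB h0) v {u | u.1 = i} = (conn A B v.1 i).card := by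
    intro v i
    rw [e_eq A B hA hB h0 v]
    trans ∑ j, (if j = i then (conn A B v.1 j).card else 0)
    · apply Finset.sum_congr rfl
      intro j _
      by_cases hj : j = i <;> simp [hj]
    · rw [Finset.sum_ite_eq']
      simp
  refine ⟨?_, by exact_mod_cast hα0, by exact_mod_cast hα1, ?_⟩
  · intro i
    exact ⟨(i, 0), rfl⟩
  · intro v i
    rw [hcnt v i, hdeg v]
    constructor
    · intro h
      have h' : v.1 ≠ i := h
      rw [conn, if_neg h']
      exact_mod_cast hAc
    · intro h
      have h' : v.1 = i := h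
      rw [conn, if_pos h']
      have : ((B.card : ℚ) : ℝ) = (((1 - ((k : ℚ) - 1) * α) * b : ℚ) : ℝ) := by rw [hBc]
      push_cast at this
      exact_mod_cast this

end Graph

section Sym

variable {p : ℕ} [hp : Fact p.Prime]

/-- The classes of `± n` with `lo ≤ n ≤ hi`. -/
def sym (p lo hi : ℕ) : Finset (ZMod p) :=
  (Icc lo hi).image (fun n : ℕ => (n : ZMod p)) ∪
    (Icc lo hi).image (fun n : ℕ => -(n : ZMod p))

lemma mem_sym {lo hi : ℕ} {x : ZMod p} :
    x ∈ sym p lo hi ↔ ∃ n, lo ≤ n ∧ n ≤ hi ∧ (x = n ∨ x = -(n : ZMod p)) := by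
  simp only [sym, mem_union, mem_image, mem_Icc]
  constructor
  · rintro (⟨n, hn, rfl⟩ | ⟨n, hn, rfl⟩)
    · exact ⟨n, hn.1, hn.2, Or.inl rfl⟩
    · exact ⟨n, hn.1, hn.2, Or.inr rfl⟩
  · rintro ⟨n, h1, h2, rfl | rfl⟩
    · exact Or.inl ⟨n, ⟨h1, h2⟩, rfl⟩
    · exact Or.inr ⟨n, ⟨h1, h2⟩, rfl⟩

lemma neg_mem_sym {lo hi : ℕ} : ∀ x ∈ sym p lo hi, -x ∈ sym p lo hi := by
  intro x hx
  rw [mem_sym] at hx ⊢
  obtain ⟨n, h1, h2, rfl | rfl⟩ := hx
  · exact ⟨n, h1, h2, Or.inr rfl⟩
  · exact ⟨n, h1, h2, Or.inl (by ring)⟩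

lemma natCast_mem_sym {lo hi u : ℕ} (hlo : 1 ≤ lo) (hu : u + hi < p) :
    ((u : ZMod p) ∈ sym p lo hi ↔ lo ≤ u ∧ u ≤ hi) := by
  rw [mem_sym]
  constructor
  · rintro ⟨n, h1, h2, h | h⟩
    · have h3 : u = n := by
        have := congrArg ZMod.val h
        rwa [ZMod.val_natCast_of_lt (by omega), ZMod.val_natCast_of_lt (by omega)] at this
      omega
    · exfalso
      have h3 : ((u + n : ℕ) : ZMod p) = 0 := by
        push_cast
        rw [h]
        ring
      rw [ZMod.natCast_eq_zero_iff] at h3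
      have := Nat.le_of_dvd (by omega) h3
      omega
  · rintro ⟨h1, h2⟩
    exact ⟨u, h1, h2, Or.inl rfl⟩

lemma card_sym {lo hi : ℕ} (hlo : 1 ≤ lo) (hhi : 2 * hi < p) :
    (sym p lo hi).card = 2 * (hi + 1 - lo) := by
  rw [sym, Finset.card_union_of_disjoint]
  · rw [Finset.card_image_of_injOn, Finset.card_image_of_injOn, Nat.card_Icc]
    · ring
    · intro n hn m hm h
      simp only [coe_Icc, Set.mem_Icc] at hn hm
      have h' : (n : ZMod p) = m := neg_injective h
      have := congrArg ZMod.val h'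
      rwa [ZMod.val_natCast_of_lt (by omega), ZMod.val_natCast_of_lt (by omega)] at this
    · intro n hn m hm h
      simp only [coe_Icc, Set.mem_Icc] at hn hm
      have h' : (n : ZMod p) = m := h
      have := congrArg ZMod.val h'
      rwa [ZMod.val_natCast_of_lt (by omega), ZMod.val_natCast_of_lt (by omega)] at this
  · rw [Finset.disjoint_left]
    intro x hx hy
    rw [mem_image] at hx hy
    obtain ⟨n, hn, rfl⟩ := hx
    obtain ⟨m, hm, h⟩ := hy
    rw [mem_Icc] at hn hm
    have h3 : ((n + m : ℕ) : ZMod p) = 0 := by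
      push_cast
      rw [← h]
      ring
    rw [ZMod.natCast_eq_zero_iff] at h3
    have := Nat.le_of_dvd (by omega) h3
    omega

end Sym

/-- For every `k ≥ 2` and every rational `α` with `0 < α ≤ 1 / (k - 1)` there is a finite connected
graph whose FAT chromatic number is `k` and which has a FAT `k`-coloring with parameter `α`. -/
theorem result (k : ℕ) (hk : 2 ≤ k) (α : ℚ) (h0 : 0 < α) (h1 : α ≤ 1 / ((k : ℚ) - 1)) :
    ∃ (V : Type) (_ : Finite V) (G : SimpleGraph V), G.Connected ∧
      IsGreatest {m : ℕ | ∃ (α' : ℝ) (c : V → Fin m), IsFAT G m α' c} k ∧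
      ∃ c : V → Fin k, IsFAT G k (α : ℝ) c := by
  have hk1 : (1 : ℚ) ≤ (k : ℚ) - 1 := by
    have : (2 : ℚ) ≤ k := by exact_mod_cast hk
    linarith
  have hα1 : α ≤ 1 := by
    refine h1.trans ?_
    rw [div_le_one (by linarith)]
    exact hk1
  have hkα : ((k : ℚ) - 1) * α ≤ 1 := by
    rw [le_div_iff₀ (by linarith)] at h1
    linarith
  set a : ℕ := α.num.toNat with ha
  set b : ℕ := α.den with hb
  have hnum : 0 < α.num := Rat.num_pos.mpr h0
  have ha1 : 1 ≤ a := by omega
  have hb0 : (0 : ℚ) < b := by exact_mod_cast α.den_pos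
  have hab : (a : ℚ) = α * b := by
    have h2 : ((a : ℤ) : ℚ) = α.num := by
      rw [ha, Int.toNat_of_nonneg hnum.le]
    have h3 : α * b = α.num := Rat.mul_den_eq_num α
    rw [h3, ← h2]
    simp
  have hle : (k - 1) * a ≤ b := by
    have h2 : (((k - 1 : ℕ) * a : ℕ) : ℚ) ≤ (b : ℚ) := by
      push_cast [Nat.cast_sub (show 1 ≤ k by omega)]
      rw [hab]
      nlinarith
    exact_mod_cast h2
  obtain ⟨c, hc⟩ := Nat.exists_eq_add_of_le hle
  have hcq : (c : ℚ) = (1 - ((k : ℚ) - 1) * α) * b := by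
    have h2 : ((b : ℕ) : ℚ) = (((k - 1) * a + c : ℕ) : ℚ) := by rw [hc]
    push_cast [Nat.cast_sub (show 1 ≤ k by omega)] at h2
    rw [hab] at h2
    linear_combination -h2
  obtain ⟨p, hpl, hpp⟩ := Nat.exists_infinite_primes (2 * (a + c) + 3)
  have : Fact p.Prime := ⟨hpp⟩
  have : NeZero p := ⟨hpp.ne_zero⟩
  have hodd : p % 2 = 1 := by
    rcases hpp.eq_two_or_odd with h | h
    · omega
    · exact h
  set A : Finset (ZMod p) := sym p 1 a with hA
  set B : Finset (ZMod p) := sym p (a + 1) (a + c) with hB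
  have hAc : A.card = 2 * a := by
    rw [hA, card_sym le_rfl (by omega)]
    omega
  have hBc : B.card = 2 * c := by
    rw [hB, card_sym (by omega) (by omega)]
    omega
  have h0B : (0 : ZMod p) ∉ B := by
    have := (natCast_mem_sym (p := p) (lo := a + 1) (hi := a + c) (u := 0) (by omega) (by omega)).not
    rw [Nat.cast_zero] at this
    rw [hB, this]
    omega
  have h1B : (1 : ZMod p) ∉ B := by
    have := (natCast_mem_sym (p := p) (lo := a + 1) (hi := a + c) (u := 1) (by omega) (by omega)).not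
    rw [Nat.cast_one] at this
    rw [hB, this]
    omega
  have h1A : (1 : ZMod p) ∈ A := by
    have := natCast_mem_sym (p := p) (lo := 1) (hi := a) (u := 1) (by omega) (by omega)
    rw [Nat.cast_one] at this
    rw [hA, this]
    omega
  have hyA : (((p - 1) / 2 : ℕ) : ZMod p) ∉ A := by
    rw [hA, natCast_mem_sym (by omega) (by omega)]
    omega
  have hyB : (((p - 1) / 2 : ℕ) : ZMod p) ∉ B := by
    rw [hB, natCast_mem_sym (by omega) (by omega)]
    omega
  have hy0 : (((p - 1) / 2 : ℕ) : ZMod p) ≠ 0 := by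
    rw [Ne, ZMod.natCast_eq_zero_iff]
    intro h
    have := Nat.le_of_dvd (by omega) h
    omega
  have hlow : IsFAT (Gr k A B neg_mem_sym neg_mem_sym h0B) k (α : ℝ) (fun u => u.1) := by
    apply lower A B neg_mem_sym neg_mem_sym h0B α h0.le hα1 (2 * b)
    · rw [hAc]
      push_cast
      rw [hab]
      ring
    · rw [hBc]
      push_cast
      rw [hcq]
      ring
  refine ⟨Fin k × ZMod p, inferInstance, Gr k A B neg_mem_sym neg_mem_sym h0B, ?_, ⟨?_, ?_⟩, ?_⟩
  · exact connected A B neg_mem_sym neg_mem_sym h0B hk (by omega) h1A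
  · exact ⟨(α : ℝ), fun u => u.1, hlow⟩
  · rintro m ⟨α', c', hc'⟩
    exact upper A B neg_mem_sym neg_mem_sym h0B hk _ hy0 hyA hyB h1A h1B m α' c' hc'
  · exact ⟨fun u => u.1, hlow⟩

end Pool.Agent.Results.MP_2d49c6_co.PrescribedParameter
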